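import Pool.Agent.H21.FR

set_option autoImplicit false

namespace Pool.Agent.Results.MP_884c22_co.Quartic

open Matrix Complex Finset Polynomial Pool.Agent.H21 FR

abbrev K := QuadraticAlgebra (QuadraticAlgebra ℤ 4 1) 41 0

def D : Data := ⟨[0, 1, 2, 10, 18, 34, 50], [[0, 0, 8, 0, 0, 0], [0, 0, 0, 8, 0, 0], [1, 0, 5, 6,
  4, 0], [0, 1, 6, 2, 0, 4], [0, 0, 2, 0, 7, 0], [0, 0, 0, 2, 0, 7]]⟩
def th (j : Fin 2 × Fin 3) : K := ⟨if j.1 = 0 then ⟨3, 1⟩ else ⟨4, -1⟩, ⟨1 - j.2, 0⟩⟩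
def W (j : Fin 2 × Fin 3) (c : ℕ) : K := (([[⟨⟨196, 84⟩, ⟨-28, -12⟩⟩, ⟨⟨70, 98⟩, ⟨-10, -14⟩⟩,
  ⟨⟨-28, 5⟩, ⟨8, 1⟩⟩, ⟨⟨24, -14⟩, ⟨-2, 4⟩⟩, ⟨⟨16, 2⟩, ⟨0, 0⟩⟩, ⟨⟨-4, 8⟩, ⟨0, 0⟩⟩], [⟨⟨264, -86⟩,
  ⟨0, 0⟩⟩, ⟨⟨-304, 132⟩, ⟨0, 0⟩⟩, ⟨⟨56, -10⟩, ⟨0, 0⟩⟩, ⟨⟨-48, 28⟩, ⟨0, 0⟩⟩, ⟨⟨-32, -4⟩, ⟨0, 0⟩⟩,
  ⟨⟨8, -16⟩, ⟨0, 0⟩⟩], [⟨⟨196, 84⟩, ⟨28, 12⟩⟩, ⟨⟨70, 98⟩, ⟨10, 14⟩⟩, ⟨⟨-28, 5⟩, ⟨-8, -1⟩⟩, ⟨⟨24,
  -14⟩, ⟨2, -4⟩⟩, ⟨⟨16, 2⟩, ⟨0, 0⟩⟩, ⟨⟨-4, 8⟩, ⟨0, 0⟩⟩], [⟨⟨280, -84⟩, ⟨-40, 12⟩⟩, ⟨⟨168, -98⟩,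
  ⟨-24, 14⟩⟩, ⟨⟨-23, -5⟩, ⟨9, -1⟩⟩, ⟨⟨10, 14⟩, ⟨2, -4⟩⟩, ⟨⟨18, -2⟩, ⟨0, 0⟩⟩, ⟨⟨4, -8⟩, ⟨0, 0⟩⟩],
  [⟨⟨178, 86⟩, ⟨0, 0⟩⟩, ⟨⟨-172, -132⟩, ⟨0, 0⟩⟩, ⟨⟨46, 10⟩, ⟨0, 0⟩⟩, ⟨⟨-20, -28⟩, ⟨0, 0⟩⟩, ⟨⟨-36,
  4⟩, ⟨0, 0⟩⟩, ⟨⟨-8, 16⟩, ⟨0, 0⟩⟩], [⟨⟨280, -84⟩, ⟨40, -12⟩⟩, ⟨⟨168, -98⟩, ⟨24, -14⟩⟩, ⟨⟨-23, -5⟩,
  ⟨-9, 1⟩⟩, ⟨⟨10, 14⟩, ⟨-2, 4⟩⟩, ⟨⟨18, -2⟩, ⟨0, 0⟩⟩, ⟨⟨4, -8⟩, ⟨0, 0⟩⟩]] : List (List K)).getD (3
  * j.1 + j.2) []).getD c 0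

theorem ok : D.Ok 50 6 := by decide +kernel
theorem s17 : √17 * √17 = 17 := Real.mul_self_sqrt (by norm_num)
theorem s41 : √41 * √41 = 41 := Real.mul_self_sqrt (by norm_num)

noncomputable def φ : K →+* ℝ := ψ (ψ (Int.castRingHom ℝ) ((1 + √17) / 2)
  (by simp; linear_combination s17 / 4)) √41 (by simp [s41, map_ofNat])
theorem φa (a b c d : ℤ) : φ ⟨⟨a, b⟩, ⟨c, d⟩⟩ =
  a + b * ((1 + √17) / 2) + (c + d * ((1 + √17) / 2)) * √41 := rfl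

theorem dec : Dec (D.gr 50) 0 (fun i => φ (th i)) fun i v => (φ (W i (D.cell v)) / (1394 : ℕ) : ℝ)
  :=
  Data.dec ok _ 0 (by decide +kernel) th W 1394 (by omega) (by decide +kernel) (by decide +kernel)

theorem c1 : ∀ (i : Fin 2) (v : Fin 50), ∑ j, W (i, j) (D.cell v) = if v = 0 then
    (if i = 0 then ⟨⟨656, 82⟩, ⟨0, 0⟩⟩ else ⟨⟨738, -82⟩, ⟨0, 0⟩⟩) else if v = 1 then
    (if i = 0 then ⟨⟨-164, 328⟩, ⟨0, 0⟩⟩ else ⟨⟨164, -328⟩, ⟨0, 0⟩⟩) else 0 := by decide +kernel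

theorem ns (N : ℕ) (h : ¬ IsSquare N) (x y : ℚ) (e : x ^ 2 = N * y ^ 2) : y = 0 := by
  by_contra k
  exact h (Rat.isSquare_natCast_iff.1 ⟨x / y, by field_simp; linarith⟩)

theorem deg : 3 ≤ (minpoly ℚ (φ (th (0, 0)))).natDegree := by
  have e : φ (th (0, 0)) = algebraMap ℚ ℝ (7 / 2) + (1 / 2 : ℚ) • √17 + √41 := by
    simp [th, φa, Rat.smul_def]; ring
  have r : ∀ n : ℕ, IsIntegral ℚ √(n : ℝ) := fun n => .of_pow two_pos (by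
    rw [Real.sq_sqrt (by positivity)]; exact isIntegral_algebraMap (x := (n : ℚ)))
  have i : IsIntegral ℚ (φ (th (0, 0))) :=
    e ▸ (isIntegral_algebraMap.add ((r 17).smul _)).add (r 41)
  by_contra! k
  have a := minpoly.aeval ℚ (φ (th (0, 0)))
  have z := minpoly.ne_zero i
  generalize minpoly ℚ (φ (th (0, 0))) = p at *
  rw [aeval_eq_sum_range' k, e] at a
  simp only [sum_range_succ, sum_range_zero, Rat.smul_def, eq_ratCast] at a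
  obtain ⟨A, hA⟩ : ∃ A, A = 115 * p.coeff 2 + 7 * p.coeff 1 + 2 * p.coeff 0 := ⟨_, rfl⟩
  obtain ⟨u, hu⟩ : ∃ u, u = 7 * p.coeff 2 + p.coeff 1 := ⟨_, rfl⟩
  obtain ⟨d, hd⟩ : ∃ d, d = p.coeff 2 := ⟨_, rfl⟩
  have b : (A + u * √17 : ℝ) = -(2 * u + 2 * d * √17) * √41 := by
    rw [hA, hu, hd]; push_cast at a ⊢
    linear_combination 2 * a - (p.coeff 2 : ℝ) / 2 * s17 - 2 * (p.coeff 2 : ℝ) * s41
  have c : ((A ^ 2 + 17 * u ^ 2 - 164 * (u ^ 2 + 17 * d ^ 2) : ℚ) : ℝ) +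
      ((2 * A * u - 328 * u * d : ℚ) : ℝ) * √17 = 0 := by
    push_cast
    linear_combination (A + u * √17 - (2 * u + 2 * d * √17) * √41) * b +
      (164 * d ^ 2 - u ^ 2 : ℝ) * s17 + (2 * u + 2 * d * √17) ^ 2 * s41
  have q : 2 * A * u - 328 * u * d = 0 := by
    by_contra q
    exact ((show Irrational √17 from (by norm_num : Nat.Prime 17).irrational_sqrt).ratCast_mul
      q).ratCast_add _ ⟨0, by rw [c]; simp⟩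
  rw [q, Rat.cast_zero, zero_mul, add_zero, Rat.cast_eq_zero] at c
  have : d = 0 ∧ u = 0 := by
    by_cases h : u = 0
    · exact ⟨ns 697 (by decide +kernel) (A / 2) d (by rw [h] at c; push_cast; linarith), h⟩
    · have m : A = 164 * d := mul_right_cancel₀ h (by linarith)
      have m : u ^ 2 = (41 : ℕ) * (2 * d) ^ 2 := by rw [m] at c; push_cast; linarith
      rw [ns 41 (by decide +kernel) _ _ m] at m
      exact absurd (by simpa using m) h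
  have w : A = 0 := by rw [this.1, this.2] at c; simpa using c
  refine z (Polynomial.ext fun n => ?_)
  by_cases h : n < 3
  · obtain ⟨_, _⟩ := this
    interval_cases n <;> simp <;> linarith
  · exact coeff_eq_zero_of_natDegree_lt (by omega)

noncomputable def τ : ℝ := 2 * Real.pi / √41
noncomputable def x (i : Fin 2) : ℂ := exp ((τ * φ (th (i, 1)) : ℝ) * I)

theorem ph (i : Fin 2) (j : Fin 3) : exp (I * τ * φ (th (i, j))) = x i := by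
  have h : (√41 : ℂ) ≠ 0 := by simp
  have : I * τ * φ (th (i, j)) = (τ * φ (th (i, 1)) : ℝ) * I +
      ((1 - j : ℤ) : ℂ) * (2 * Real.pi * I) := by
    fin_cases i <;> simp [th, φa, τ] <;> field_simp
  rw [this, exp_add, exp_int_mul_two_pi_mul_I, mul_one, x]

theorem ev : U (D.gr 50) τ *ᵥ Pi.single 0 1 =
    ((x 0 * (697 + 41 * √17 : ℝ) + x 1 * (697 - 41 * √17 : ℝ)) / 1394) • Pi.single 0 1 +
      ((x 0 - x 1) * (164 * √17 : ℝ) / 1394) • Pi.single 1 1 := by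
  rw [dec.evol]
  ext u
  have a := congrArg (fun y => (φ y : ℂ) / 1394) (c1 0 u)
  have b := congrArg (fun y => (φ y : ℂ) / 1394) (c1 1 u)
  simp only [map_sum] at a b
  simp only [Fintype.sum_prod_type, ph, Finset.sum_apply, Pi.smul_apply, smul_eq_mul,
    Pi.add_apply, Pi.single_apply, ← mul_sum, Fin.sum_univ_two]
  push_cast at a b ⊢
  rw [sum_div] at a b
  rw [a, b]
  split_ifs with p q
  · exact absurd (p.symm.trans q) (by decide)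
  all_goals simp [φa] <;> ring

theorem result : ∃ (n : ℕ) (G : SimpleGraph (Fin n)) (a b : Fin n) (t : ℝ) (α β : ℂ), a ≠ b ∧
    0 < t ∧ α * β ≠ 0 ∧ U G t *ᵥ Pi.single a 1 = α • Pi.single a 1 + β • Pi.single b 1 ∧
      ∃ θ : ℝ, E G θ *ᵥ Pi.single a 1 ≠ 0 ∧ 3 ≤ (minpoly ℚ θ).natDegree := by
  have s : (4 : ℝ) < √17 := Real.lt_sqrt_of_sq_lt (by norm_num)
  have s' : √17 < (4.2 : ℝ) := (Real.sqrt_lt' (by norm_num)).2 (by norm_num)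
  have r : (6.4 : ℝ) < √41 := Real.lt_sqrt_of_sq_lt (by norm_num)
  have n : ∀ i, ‖x i‖ = 1 := fun i => norm_exp_ofReal_mul_I _
  refine ⟨50, D.gr 50, 0, 1, τ, _, _, by decide, by unfold τ; positivity,
    mul_ne_zero (div_ne_zero (fun h => ?_) (by simp)) (div_ne_zero (mul_ne_zero (fun h => ?_)
      (by simp)) (by simp)), ev, _, fun h => ?_, deg⟩
  · have := congrArg norm (eq_neg_of_add_eq_zero_left h)
    rw [norm_neg, norm_mul, norm_mul, n, n, norm_real, norm_real, Real.norm_of_nonneg,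
      Real.norm_of_nonneg] at this <;> linarith
  · obtain ⟨k, hk⟩ := exp_eq_exp_iff_exists_int.1 (sub_eq_zero.1 h)
    have hk := congrArg im hk
    simp [th, φa, τ] at hk
    field_simp at hk
    have : (17 : ℝ) = 41 * k ^ 2 := by
      have : √17 = k * √41 := by linarith
      rw [← s17, this]; linear_combination (k : ℝ) ^ 2 * s41
    have : 17 = 41 * k ^ 2 := by exact_mod_cast this
    omega
  · have := congrFun h 4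
    rw [mulVec_single_one, col_apply, dec.proj (0, 0) (fun j e => ?_),
      show W (0, 0) (D.cell (4 : Fin 50)) = ⟨⟨-28, 5⟩, ⟨8, 1⟩⟩ by decide +kernel, φa] at this
    · simp only [Pi.zero_apply, ofReal_eq_zero] at this
      push_cast at this
      nlinarith
    · obtain ⟨i, j⟩ := j
      fin_cases i <;> fin_cases j <;> simp [th, φa] at e ⊢ <;> linarith

end Pool.Agent.Results.MP_884c22_co.Quartic
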